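import Pool.Agent.Helper20.KP.StH

set_option autoImplicit false

namespace Pool.Agent.Helper60.KP

open MeasureTheory Filter Topology Pool.Agent.Helper52.KP Pool.Agent.Helper20.KP

/-- a linear form which is injective on a finite set -/
private lemma sep_form {N : ℕ} (S : Set (Fin N → ℂ)) (hS : S.Finite) :
    ∃ l : (Fin N → ℂ) →ₗ[ℂ] ℂ, Set.InjOn l S := by
  classical
  obtain ⟨p, hp⟩ : ∃ p : (Fin N → ℂ) → (Fin N → ℂ) → Polynomial ℂ,
      p = fun x x' => ∑ i : Fin N, Polynomial.monomial (i : ℕ) (x i - x' i) := ⟨_, rfl⟩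
  have hp0 : ∀ x x', x ≠ x' → p x x' ≠ 0 := by
    intro x x' hx h
    apply hx
    funext i
    have h1 := congrArg (fun P => Polynomial.coeff P (i : ℕ)) h
    rw [hp] at h1
    simp only [Polynomial.finsetSum_coeff, Polynomial.coeff_zero, Polynomial.coeff_monomial] at h1
    rw [Finset.sum_eq_single i] at h1
    · rw [if_pos rfl] at h1
      exact sub_eq_zero.mp h1
    · intro j _ hj
      rw [if_neg]
      intro h
      exact hj (Fin.ext h)
    · intro h
      exact absurd (Finset.mem_univ i) h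
  obtain ⟨Z, hZ⟩ : ∃ Z : Set ℂ, Z = ⋃ x ∈ S, ⋃ x' ∈ S, ⋃ (_ : x ≠ x'), {c | (p x x').eval c = 0} :=
    ⟨_, rfl⟩
  have hZf : Z.Finite := by
    rw [hZ]
    refine hS.biUnion fun x _ => hS.biUnion fun x' _ => ?_
    by_cases hx : x = x'
    · simp [hx]
    · have h1 : {c : ℂ | (p x x').eval c = 0} = (p x x').rootSet ℂ := by
        ext c
        rw [Polynomial.mem_rootSet]
        constructor
        · intro h
          exact ⟨hp0 x x' hx, by simpa using h⟩
        · intro h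
          simpa using h.2
      simp only [ne_eq, hx, not_false_eq_true, Set.iUnion_true]
      rw [h1]
      exact (p x x').rootSet_finite ℂ
  obtain ⟨c, hc⟩ := hZf.infinite_compl.nonempty
  refine ⟨∑ i : Fin N, (c ^ (i : ℕ)) • (LinearMap.proj i : (Fin N → ℂ) →ₗ[ℂ] ℂ), ?_⟩
  intro x hx x' hx' h
  by_contra hne
  apply hc
  rw [hZ]
  simp only [Set.mem_iUnion]
  refine ⟨x, hx, x', hx', hne, ?_⟩
  show (p x x').eval c = 0
  rw [hp]
  simp only [LinearMap.coe_sum, Finset.sum_apply, LinearMap.smul_apply, LinearMap.proj_apply,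
    smul_eq_mul] at h
  rw [Polynomial.eval_finsetSum]
  simp only [Polynomial.eval_monomial]
  have h1 : ∑ i : Fin N, (x i - x' i) * c ^ (i : ℕ) =
      ∑ i : Fin N, c ^ (i : ℕ) * x i - ∑ i : Fin N, c ^ (i : ℕ) * x' i := by
    rw [← Finset.sum_sub_distrib]
    refine Finset.sum_congr rfl fun i _ => ?_
    ring
  rw [h1, h, sub_self]

private lemma tc_eq {D : OD} {Y : D.LM} {Dc : MvPolynomial (Fin D.m) ℂ} {rd : ℕ}
    (hFB : FB D Y Dc rd) (y : Fin D.m → ℂ) (hy : ev Dc y ≠ 0) :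
    ∃ x : Fin rd → (Fin D.N → ℂ), Function.Injective x ∧ D.fb Y y = Set.range x ∧
      ∀ F : (Fin D.N → ℂ) → ℂ, D.tc Y F y = ∑ a, F (x a) := by
  obtain ⟨ρ, hρ, ζ, -, -, h⟩ := hFB.loc y hy
  obtain ⟨h1, h2⟩ := h y (Metric.mem_ball_self hρ)
  refine ⟨fun a => ζ a y, h1, h2, ?_⟩
  intro F
  unfold OD.tc
  rw [h2, finsum_mem_range h1, finsum_eq_sum_of_fintype]

private lemma det_eq {rd m : ℕ} (T : ℕ → MvPolynomial (Fin m) ℂ) (y : Fin m → ℂ) (v : Fin rd → ℂ)
    (h : ∀ j, ev (T j) y = ∑ a, v a ^ j) :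
    ev (Matrix.of fun i j : Fin rd => T (i + j)).det y = (Matrix.vandermonde v).det ^ 2 := by
  have h1 : ev (Matrix.of fun i j : Fin rd => T (i + j)).det y =
      ((Matrix.of fun i j : Fin rd => T (i + j)).map (MvPolynomial.eval y)).det :=
    RingHom.map_det _ _
  rw [h1]
  have h2 : (Matrix.of fun i j : Fin rd => T (i + j)).map (MvPolynomial.eval y) =
      (Matrix.vandermonde v).transpose * Matrix.vandermonde v := by
    ext i j
    rw [Matrix.map_apply, Matrix.of_apply, Matrix.mul_apply]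
    have := h ((i : ℕ) + (j : ℕ))
    refine Eq.trans this ?_
    refine Finset.sum_congr rfl fun a _ => ?_
    rw [Matrix.transpose_apply, Matrix.vandermonde_apply, Matrix.vandermonde_apply, pow_add]
  rw [h2, Matrix.det_mul, Matrix.det_transpose, ← pow_two]

theorem hHSP (hHPL : StHPL) (hHCO : StHCO) (hHOC : StHOC) : StHSP := by
  intro D hD Y Dc rd hFB
  have second : ∀ k F, HolO D.O F → HomO D.O k F →
    ∃ P : MvPolynomial (Fin D.m) ℂ, P.IsHomogeneous k ∧
      ∀ y, ev Dc y ≠ 0 → D.tc Y F y = ev P y := by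
    intro k F hF hk
    obtain ⟨P, hP, hPe⟩ := hHPL D hD Y Dc rd hFB k F hF hk (rd - 1) (Nat.sub_le _ _)
    have hrd := hFB.pos
    have h1 : k * (rd - (rd - 1)) = k := by
      have : rd - (rd - 1) = 1 := by omega
      rw [this, Nat.mul_one]
    rw [h1] at hP
    refine ⟨-P, hP.neg, ?_⟩
    intro y hy
    obtain ⟨-, h2, -⟩ := hHCO D hD Y Dc rd hFB F hF
    obtain ⟨-, -, -, h3, -⟩ := h2 y hy
    rw [h3, hPe y hy]
    exact (map_neg (MvPolynomial.eval y) P).symm
  refine ⟨?_, second⟩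
  obtain ⟨-, -, hL, -, -, hpow, hpowh, -, -⟩ := hHOC D hD
  obtain ⟨y₁, hy₁⟩ : ∃ y₁, ev Dc y₁ ≠ 0 := by
    by_contra hcon
    push Not at hcon
    apply hFB.D0
    apply MvPolynomial.funext
    intro z
    rw [map_zero]
    exact hcon z
  obtain ⟨x₁, hx₁, hfb₁, htc₁⟩ := tc_eq hFB y₁ hy₁
  obtain ⟨l, hl⟩ := sep_form (D.fb Y y₁) (by rw [hfb₁]; exact Set.finite_range x₁)
  have hT : ∀ j : ℕ, ∃ P : MvPolynomial (Fin D.m) ℂ, P.IsHomogeneous j ∧
      ∀ y, ev Dc y ≠ 0 → D.tc Y (fun x => l x ^ j) y = ev P y := by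
    intro j
    have h1 := hpow _ (hL l).1 j
    have h2 := hpowh 1 _ (hL l).2 j
    rw [Nat.one_mul] at h2
    exact second j _ h1 h2
  choose T hTh hTe using hT
  refine ⟨l, T, hTh, hTe, ?_, ?_⟩
  · intro h0
    have h1 := det_eq (rd := rd) T y₁ (fun a => l (x₁ a)) (fun j => by
      rw [← hTe j y₁ hy₁, htc₁])
    rw [h0] at h1
    have h2 : (Matrix.vandermonde fun a => l (x₁ a)).det ≠ 0 := by
      rw [Matrix.det_vandermonde_ne_zero_iff]
      intro a b hab
      apply hx₁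
      apply hl _ _ hab
      · rw [hfb₁]; exact ⟨a, rfl⟩
      · rw [hfb₁]; exact ⟨b, rfl⟩
    apply pow_ne_zero 2 h2
    rw [← h1]
    exact map_zero _
  · intro y hy hdet
    obtain ⟨x, hx, hfb, htc⟩ := tc_eq hFB y hy
    have h1 := det_eq (rd := rd) T y (fun a => l (x a)) (fun j => by
      rw [← hTe j y hy, htc])
    rw [h1] at hdet
    have h2 : (Matrix.vandermonde fun a => l (x a)).det ≠ 0 := fun h => hdet (by rw [h]; ring)
    rw [Matrix.det_vandermonde_ne_zero_iff] at h2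
    rw [hfb]
    rintro _ ⟨a, rfl⟩ _ ⟨b, rfl⟩ hab
    rw [h2 hab]

end Pool.Agent.Helper60.KP
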