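import Pool.Agent.Helper68.KP.StR

set_option autoImplicit false

namespace Pool.Agent.Helper60.KP

open Filter Topology Pool.Agent.Helper52.KP Pool.Agent.Helper68.KP

private lemma indep_aux (C : Cone) (hC : Good C) (q : ℕ) (hq : 0 < q) (s : Finset ℕ)
    (f : ℕ → MvPolynomial (Fin C.m) ℂ) (hf : ∀ k ∈ s, f k ∈ C.R (q * k))
    (h0 : ∑ k ∈ s, f k = 0) : ∀ k ∈ s, f k = 0 := by
  intro k hk
  apply MvPolynomial.funext
  intro z
  rw [map_zero]
  have hP : (∑ j ∈ s, Polynomial.monomial (q * j) (ev (f j) z) : Polynomial ℂ) = 0 := by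
    apply Polynomial.funext
    intro c
    rw [Polynomial.eval_finsetSum, Polynomial.eval_zero]
    have h1 : ev (∑ j ∈ s, f j) (scl C.w c z) = 0 := by rw [h0]; exact map_zero _
    have h2 : ev (∑ j ∈ s, f j) (scl C.w c z) = ∑ j ∈ s, ev (f j) (scl C.w c z) := map_sum _ _ _
    rw [h2] at h1
    rw [← h1]
    refine Finset.sum_congr rfl fun j hj => ?_
    rw [Polynomial.eval_monomial, hC.hom (q * j) (f j) (hf j hj) c z, mul_comm]
  have h3 := congrArg (fun P => Polynomial.coeff P (q * k)) hP
  simp only [Polynomial.finsetSum_coeff, Polynomial.coeff_zero, Polynomial.coeff_monomial] at h3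
  rw [Finset.sum_eq_single k] at h3
  · rw [if_pos rfl] at h3
    exact h3
  · intro j _ hj
    rw [if_neg]
    intro h
    exact hj (Nat.eq_of_mul_eq_mul_left hq h)
  · intro h
    exact absurd hk h

theorem hSGC : StSGC := by
  intro hI C hC r F hF
  have hq : 0 < C.n * r := Nat.mul_pos hC.hn hF.hr
  have hanti : ∀ k l l', l ≤ l' → F k l' ≤ F k l := by
    intro k l l' hl
    exact antitone_nat_of_succ_le (fun l => hF.anti k l) hl
  refine ⟨⟨fun k => hC.fd _, ?_, ?_, ?_, ?_⟩, ?_, ?_, ?_⟩
  · -- zero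
    show C.R (C.n * r * 0) = _
    rw [Nat.mul_zero]
    apply le_antisymm
    · intro f hf
      obtain ⟨c, rfl⟩ := hC.cst f hf
      rw [Submodule.mem_span_singleton]
      exact ⟨c, by rw [← MvPolynomial.algebraMap_eq, Algebra.algebraMap_eq_smul_one]⟩
    · rw [Submodule.span_le]
      rintro x hx
      rw [Set.mem_singleton_iff] at hx
      rw [hx]
      exact hC.one
  · -- mul
    intro k k' f f' hf hf'
    show f * f' ∈ C.R (C.n * r * (k + k'))
    rw [Nat.mul_add]
    exact hC.mul _ _ _ _ hf hf'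
  · -- gen
    intro k hk
    have h := hF.gen k 0 hk
    rw [hF.zero] at h
    show C.R (C.n * r * (k + 1)) = _
    rw [h]
    congr 1
    ext b
    constructor
    · rintro ⟨i, j, f, f', hij, hf, hf', rfl⟩
      obtain ⟨rfl, rfl⟩ : i = 0 ∧ j = 0 := by omega
      rw [hF.zero] at hf hf'
      exact ⟨f, f', hf, hf', rfl⟩
    · rintro ⟨f, f', hf, hf', rfl⟩
      refine ⟨0, 0, f, f', rfl, ?_, ?_, rfl⟩
      · rw [hF.zero]; exact hf
      · rw [hF.zero]; exact hf'
  · -- grow
    have hrd : (0 : ℝ) < C.rd := by exact_mod_cast hC.rd0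
    have hqr : (0 : ℝ) < ((C.n * r : ℕ) : ℝ) := by exact_mod_cast hq
    refine ⟨((C.n * r : ℕ) : ℝ) ^ (C.m - 1) * ((C.rd : ℝ) / (C.m - 1).factorial), by positivity, ?_⟩
    have h1 : Tendsto (fun k : ℕ => C.n * r * k) atTop atTop :=
      Filter.Tendsto.const_mul_atTop' hq tendsto_id
    have h2 := (hC.dim.comp h1).const_mul (((C.n * r : ℕ) : ℝ) ^ (C.m - 1))
    refine h2.congr ?_
    intro k
    simp only [Function.comp]
    rw [Nat.cast_mul (C.n * r) k, mul_pow]
    rcases Nat.eq_zero_or_pos k with rfl | hk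
    · rcases Nat.eq_zero_or_pos (C.m - 1) with h | h
      · rw [h]
        simp
        rfl
      · rw [Nat.cast_zero, zero_pow (by omega)]; simp
    · have hk' : (0 : ℝ) < k := by exact_mod_cast hk
      field_simp
  · -- HF
    have h := hI C hC
    exact ⟨fun k => h.add _, fun k => h.smul _, fun k => h.symm _, fun k => h.pos _⟩
  · -- iSupIndep
    rw [iSupIndep_iff_finsetSum_eq_zero_imp_eq_zero]
    intro s v hv h0
    exact indep_aux C hC (C.n * r) hq s (fun k => v k) hv h0
  · -- FF
    obtain ⟨L, hL⟩ := hF.sep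
    have hb1 : ∀ l, L ≤ l → F 1 l = ⊥ := by
      intro l hl
      rw [eq_bot_iff, ← hL]
      exact hanti 1 L l hl
    have hb0 : ∀ l, 1 ≤ l → F 0 l = ⊥ := by
      intro l hl
      rw [eq_bot_iff, ← hF.sep0]
      exact hanti 0 1 l hl
    have hb : ∀ k l, L * k < l → F k l = ⊥ := by
      intro k
      induction k with
      | zero => intro l hl; exact hb0 l (by omega)
      | succ k ih =>
        intro l hl
        rcases Nat.eq_zero_or_pos k with rfl | hk
        · exact hb1 l (by simp only [Nat.zero_add, Nat.mul_one] at hl; omega)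
        · rw [hF.gen k l hk, eq_bot_iff, Submodule.span_le]
          rintro b ⟨i, j, f, f', hij, hf, hf', rfl⟩
          rw [Nat.mul_succ] at hl
          rcases Nat.lt_or_ge (L * k) i with h | h
          · rw [ih i h, Submodule.mem_bot] at hf
            rw [hf, zero_mul]
            exact zero_mem _
          · rw [hb1 j (by omega), Submodule.mem_bot] at hf'
            rw [hf', mul_zero]
            exact zero_mem _
    refine ⟨L, hF.zero, ?_, hF.anti, hF.mul, hb⟩
    show F 1 1 = C.R (C.n * r * 1)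
    rw [Nat.mul_one]
    exact hF.one

end Pool.Agent.Helper60.KP
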