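import Pool.Agent.Helper85.KP.StE

set_option autoImplicit false

namespace Pool.Agent.Helper60.KP

open MeasureTheory Filter Pool.Agent.Helper52.KP Pool.Agent.Helper85.KP

section Core

variable {V : Type*} [AddCommGroup V] [Module ℂ V] (B : V → V → ℂ)

private lemma B_zero (hsm : ∀ (c : ℂ) f h, B (c • f) h = c * B f h) (h : V) : B 0 h = 0 := by
  have := hsm 0 0 h
  simpa using this

private lemma B_sum (hadd : ∀ f g h, B (f + g) h = B f h + B g h)
    (hsm : ∀ (c : ℂ) f h, B (c • f) h = c * B f h) {ι : Type*} (t : Finset ι) (c : ι → ℂ)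
    (v : ι → V) (h : V) : B (∑ i ∈ t, c i • v i) h = ∑ i ∈ t, c i * B (v i) h := by
  classical
  induction t using Finset.induction_on with
  | empty => simp [B_zero B hsm]
  | insert a t ha ih => rw [Finset.sum_insert ha, Finset.sum_insert ha, hadd, hsm, ih]

private lemma B_sum_right (hadd : ∀ f g h, B (f + g) h = B f h + B g h)
    (hsm : ∀ (c : ℂ) f h, B (c • f) h = c * B f h) (hsy : ∀ f g, B g f = star (B f g))
    {ι : Type*} (t : Finset ι) (c : ι → ℂ)
    (v : ι → V) (h : V) : B h (∑ i ∈ t, c i • v i) = ∑ i ∈ t, star (c i) * B h (v i) := by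
  rw [hsy (∑ i ∈ t, c i • v i) h, B_sum B hadd hsm, star_sum]
  refine Finset.sum_congr rfl fun i _ => ?_
  rw [star_mul', hsy (v i) h]

private lemma expand (hadd : ∀ f g h, B (f + g) h = B f h + B g h)
    (hsm : ∀ (c : ℂ) f h, B (c • f) h = c * B f h) {N : ℕ} (s : Fin N → V)
    (hs : ∀ f : V, ∃ c : Fin N → ℂ, ∑ i, c i • s i = f)
    (ho : ∀ i j, B (s i) (s j) = if i = j then 1 else 0) (f : V) :
    f = ∑ j, B f (s j) • s j := by
  obtain ⟨c, rfl⟩ := hs f
  refine Finset.sum_congr rfl fun j _ => ?_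
  rw [B_sum B hadd hsm]
  congr 1
  rw [Finset.sum_eq_single j]
  · rw [ho, if_pos rfl, mul_one]
  · intro i _ hij
    rw [ho, if_neg hij, mul_zero]
  · intro h
    exact absurd (Finset.mem_univ j) h

private theorem core (hadd : ∀ f g h, B (f + g) h = B f h + B g h)
    (hsm : ∀ (c : ℂ) f h, B (c • f) h = c * B f h) (hsy : ∀ f g, B g f = star (B f g))
    {N N' : ℕ} (s : Fin N → V) (s' : Fin N' → V) (lam : Fin N → ℕ) (lam' : Fin N' → ℕ)
    (hs : ∀ f : V, ∃ c : Fin N → ℂ, ∑ i, c i • s i = f)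
    (hs' : ∀ f : V, ∃ c : Fin N' → ℂ, ∑ i, c i • s' i = f)
    (ho : ∀ i j, B (s i) (s j) = if i = j then 1 else 0)
    (ho' : ∀ i j, B (s' i) (s' j) = if i = j then 1 else 0)
    (hor : ∀ i j, lam' i ≠ lam j → B (s' i) (s j) = 0) (W : V →ₗ[ℂ] V) :
    ∑ j, (B ((lam j : ℂ) • s j - W (s j)) ((lam j : ℂ) • s j - W (s j))).re =
    ∑ j, (B ((lam' j : ℂ) • s' j - W (s' j)) ((lam' j : ℂ) • s' j - W (s' j))).re := by
  obtain ⟨u, hu⟩ : ∃ u : Fin N' → Fin N → ℂ, u = fun i j => B (s' i) (s j) := ⟨_, rfl⟩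
  obtain ⟨a, ha⟩ : ∃ a : Fin N → V, a = fun j => (lam j : ℂ) • s j - W (s j) := ⟨_, rfl⟩
  have e1 : ∀ i, s' i = ∑ j, u i j • s j := by
    intro i
    rw [hu]
    exact expand B hadd hsm s hs ho (s' i)
  have e2 : ∀ i, (lam' i : ℂ) • s' i - W (s' i) = ∑ j, u i j • a j := by
    intro i
    have h1 : (lam' i : ℂ) • s' i = ∑ j, u i j • ((lam j : ℂ) • s j) := by
      conv_lhs => rw [e1 i]
      rw [Finset.smul_sum]
      refine Finset.sum_congr rfl fun j _ => ?_
      by_cases h : lam' i = lam j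
      · rw [h, smul_comm]
      · have : u i j = 0 := by rw [hu]; exact hor i j h
        rw [this, zero_smul, zero_smul, smul_zero]
    have h2 : W (s' i) = ∑ j, u i j • W (s j) := by
      conv_lhs => rw [e1 i]
      rw [map_sum]
      refine Finset.sum_congr rfl fun j _ => ?_
      rw [map_smul]
    rw [h1, h2, ← Finset.sum_sub_distrib]
    refine Finset.sum_congr rfl fun j _ => ?_
    rw [ha]
    simp only [smul_sub]
  have e3 : ∀ j l, ∑ i, u i j * star (u i l) = if j = l then 1 else 0 := by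
    intro j l
    have h1 : B (s l) (s j) = ∑ i, star (u i l) * u i j := by
      conv_lhs => rw [expand B hadd hsm s' hs' ho' (s l)]
      rw [B_sum B hadd hsm]
      refine Finset.sum_congr rfl fun i _ => ?_
      rw [hu]
      simp only
      rw [hsy (s' i) (s l)]
    rw [ho] at h1
    have h2 : ∑ i, u i j * star (u i l) = ∑ i, star (u i l) * u i j :=
      Finset.sum_congr rfl fun i _ => mul_comm _ _
    rw [h2, ← h1]
    by_cases h : j = l
    · rw [if_pos h, if_pos h.symm]
    · rw [if_neg h, if_neg (Ne.symm h)]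
  have e4 : ∑ i, B (∑ j, u i j • a j) (∑ j, u i j • a j) = ∑ j, B (a j) (a j) := by
    have h1 : ∀ i, B (∑ j, u i j • a j) (∑ j, u i j • a j) =
        ∑ j, ∑ l, (u i j * star (u i l)) * B (a j) (a l) := by
      intro i
      rw [B_sum B hadd hsm]
      refine Finset.sum_congr rfl fun j _ => ?_
      rw [B_sum_right B hadd hsm hsy, Finset.mul_sum]
      refine Finset.sum_congr rfl fun l _ => ?_
      ring
    calc ∑ i, B (∑ j, u i j • a j) (∑ j, u i j • a j)
        = ∑ i, ∑ j, ∑ l, (u i j * star (u i l)) * B (a j) (a l) :=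
          Finset.sum_congr rfl fun i _ => h1 i
      _ = ∑ j, ∑ l, ∑ i, (u i j * star (u i l)) * B (a j) (a l) := by
          rw [Finset.sum_comm]
          refine Finset.sum_congr rfl fun j _ => ?_
          rw [Finset.sum_comm]
      _ = ∑ j, ∑ l, (if j = l then 1 else 0) * B (a j) (a l) := by
          refine Finset.sum_congr rfl fun j _ => Finset.sum_congr rfl fun l _ => ?_
          rw [← Finset.sum_mul, e3]
      _ = ∑ j, B (a j) (a j) := by
          refine Finset.sum_congr rfl fun j _ => ?_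
          rw [Finset.sum_eq_single j]
          · rw [if_pos rfl, one_mul]
          · intro l _ hl
            rw [if_neg (Ne.symm hl), zero_mul]
          · intro h
            exact absurd (Finset.mem_univ j) h
  have e5 : ∑ j, (B (a j) (a j)).re = ∑ i, (B (∑ j, u i j • a j) (∑ j, u i j • a j)).re := by
    rw [← Complex.re_sum, ← Complex.re_sum, e4]
  have e6 : ∀ j, (lam j : ℂ) • s j - W (s j) = a j := fun j => by rw [ha]
  simp only [e6, e2]
  exact e5

end Core

private lemma orth (C : Cone) (D : ℕ)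
    (hadd : ∀ f ∈ C.R D, ∀ g ∈ C.R D, ∀ h ∈ C.R D, ipp C (f + g) h = ipp C f h + ipp C g h)
    (hsm : ∀ f ∈ C.R D, ∀ h ∈ C.R D, ∀ c : ℂ, ipp C (c • f) h = c * ipp C f h)
    (S : Set (MvPolynomial (Fin C.m) ℂ)) (hS : ∀ x ∈ S, x ∈ C.R D)
    (g : MvPolynomial (Fin C.m) ℂ) (hg : g ∈ C.R D) (h0 : ∀ x ∈ S, ipp C x g = 0)
    (f : MvPolynomial (Fin C.m) ℂ) (hf : f ∈ Submodule.span ℂ S) : ipp C f g = 0 := by
  have key : f ∈ C.R D ∧ ipp C f g = 0 := by
    induction hf using Submodule.span_induction with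
    | mem x hx => exact ⟨hS x hx, h0 x hx⟩
    | zero =>
      refine ⟨zero_mem _, ?_⟩
      have := hsm 0 (zero_mem _) g hg 0
      simpa using this
    | add x y _ _ hx hy =>
      refine ⟨add_mem hx.1 hy.1, ?_⟩
      rw [hadd x hx.1 y hy.1 g hg, hx.2, hy.2, add_zero]
    | smul c x _ hx =>
      refine ⟨Submodule.smul_mem _ _ hx.1, ?_⟩
      rw [hsm x hx.1 g hg c, hx.2, mul_zero]
  exact key.2

theorem hEIB : StMOM → StIPP → StNUL → StEIB := by
  intro _ hI _
  intro C hC r k N N' F s lam s' lam' hF0 hA hA' ho ho' W h h'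
  obtain ⟨hadd0, hsm0, hsy, -, -⟩ := hI C hC
  generalize C.n * r * k = D at hF0 W h h' ⊢
  have hadd := hadd0 D
  have hsm := hsm0 D
  -- spans
  have hr : Submodule.span ℂ (Set.range s) = C.R D := by
    rw [← hF0, hA.span 0]
    congr 1
    ext x
    simp
  have hr' : Submodule.span ℂ (Set.range s') = C.R D := by
    rw [← hF0, hA'.span 0]
    congr 1
    ext x
    simp
  have hN : N = N' := by
    have h1 := finrank_span_eq_card hA.li
    have h2 := finrank_span_eq_card hA'.li
    rw [hr] at h1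
    rw [hr'] at h2
    rw [h1] at h2
    simpa using h2
  refine ⟨hN, ?_⟩
  have hor : ∀ i j, lam' i ≠ lam j → ipp C (s' i) (s j) = 0 := by
    intro i j hij
    rcases lt_or_gt_of_ne hij with hlt | hgt
    · -- lam' i < lam j
      have hm : s j ∈ Submodule.span ℂ (s' '' {l | lam j ≤ lam' l}) := by
        rw [← hA'.span, hA.span]
        exact Submodule.subset_span ⟨j, le_refl (lam j), rfl⟩
      have h1 : ipp C (s j) (s' i) = 0 := by
        refine orth C D hadd hsm _ ?_ (s' i) (h' i) ?_ (s j) hm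
        · rintro x ⟨l, -, rfl⟩
          exact h' l
        · rintro x ⟨l, hl, rfl⟩
          rw [ho', if_neg]
          rintro rfl
          have : lam j ≤ lam' l := hl
          omega
      rw [hsy (s j) (s' i), h1, star_zero]
    · have hm : s' i ∈ Submodule.span ℂ (s '' {l | lam' i ≤ lam l}) := by
        rw [← hA.span, hA'.span]
        exact Submodule.subset_span ⟨i, le_refl (lam' i), rfl⟩
      refine orth C D hadd hsm _ ?_ (s j) (h j) ?_ (s' i) hm
      · rintro x ⟨l, -, rfl⟩
        exact h l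
      · rintro x ⟨l, hl, rfl⟩
        rw [ho, if_neg]
        rintro rfl
        have : lam' i ≤ lam l := hl
        omega
  have hex : ∀ {M : ℕ} (t : Fin M → MvPolynomial (Fin C.m) ℂ) (ht : ∀ j, t j ∈ C.R D),
      Submodule.span ℂ (Set.range t) = C.R D → ∀ f : C.R D, ∃ c : Fin M → ℂ,
        ∑ i, c i • (⟨t i, ht i⟩ : C.R D) = f := by
    intro M t ht hsp f
    have hf : (f : MvPolynomial (Fin C.m) ℂ) ∈ Submodule.span ℂ (Set.range t) := by
      rw [hsp]; exact f.2
    obtain ⟨c, hc⟩ := (Submodule.mem_span_range_iff_exists_fun ℂ).mp hf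
    refine ⟨c, ?_⟩
    apply Subtype.ext
    rw [← hc]
    push_cast
    rfl
  exact core (V := C.R D) (fun f g => ipp C f g)
    (fun f g x => hadd f f.2 g g.2 x x.2) (fun c f x => hsm f f.2 x x.2 c)
    (fun f g => hsy f g) (fun j => ⟨s j, h j⟩) (fun j => ⟨s' j, h' j⟩) lam lam'
    (hex s h hr) (hex s' h' hr') ho ho' hor W

end Pool.Agent.Helper60.KP
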